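import Mathlib

set_option autoImplicit false

/-!
# Self-inverting power series and Hessian nilpotency

* Every self-inverting polynomial is Hessian nilpotent.
* For every `n ≥ 3` there are self-inverting formal power series in `n` variables, of arbitrarily
  large order, that are not Hessian nilpotent.

The counterexample. Put `a = z₀ + i z₁`, `b = z₀ - i z₁`, `w = z₂ / (1 + a)` and
`S = b + w ^ 2 (1 + a)`. Then `⟨∇S, ∇S⟩ = 0` and `ΔS = 2 / (1 + a)`, and `P = S ^ m` works.
-/

namespace Pool.Agent.Results.MP_e6e7b2_al.SelfInverting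

open MvPowerSeries

/-- The ring of formal power series in `z_0, …, z_{n-1}` over `ℂ`. -/
abbrev PS (n : ℕ) : Type := MvPowerSeries (Fin n) ℂ

/-- The Hessian matrix of a power series. -/
noncomputable def Hes {n : ℕ} (P : PS n) : Matrix (Fin n) (Fin n) (PS n) :=
  Matrix.of fun i j => pderiv ℂ i (pderiv ℂ j P)

/-- `P` is Hessian nilpotent. -/
def HN {n : ℕ} (P : PS n) : Prop := IsNilpotent (Hes P)

/-- `Q` is the inversion pair of `P`: `Q(0) = 0`, and the formal maps `z ↦ z - ∇P(z)` and
`z ↦ z + ∇Q(z)` are inverse to each other. -/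
def IsInversionPair {n : ℕ} (P Q : PS n) : Prop :=
  constantCoeff Q = 0 ∧
  (∀ i, subst (fun j => X j + pderiv ℂ j Q) (X i - pderiv ℂ i P) = (X i : PS n)) ∧
  (∀ i, subst (fun j => X j - pderiv ℂ j P) (X i + pderiv ℂ i Q) = (X i : PS n))

/-- `P` is self-inverting: `o(P) ≥ 2`, the matrix `(Hes P)(0)` is nilpotent, and the inversion pair
of `P` is `P` itself. -/
def IsSelfInverting {n : ℕ} (P : PS n) : Prop :=
  2 ≤ P.order ∧ IsNilpotent ((Hes P).map (constantCoeff (σ := Fin n) (R := ℂ))) ∧
    IsInversionPair P P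

/-! ### The polynomial case -/

section Poly

variable {n : ℕ}

/-- chain rule -/
lemma chain (s : Fin n → MvPolynomial (Fin n) ℂ) (k : Fin n) (f : MvPolynomial (Fin n) ℂ) :
    MvPolynomial.pderiv k (MvPolynomial.aeval s f) =
      ∑ j, MvPolynomial.pderiv k (s j) * MvPolynomial.aeval s (MvPolynomial.pderiv j f) := by
  induction f using MvPolynomial.induction_on with
  | C a => simp
  | add p q hp hq => simp only [map_add, hp, hq, mul_add, Finset.sum_add_distrib]
  | mul_X p i hp =>
    simp only [map_mul, MvPolynomial.aeval_X, Derivation.leibniz, hp, smul_eq_mul,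
      MvPolynomial.pderiv_X, map_add, mul_add, Finset.sum_add_distrib]
    have : ∀ j, MvPolynomial.aeval s (Pi.single (M := fun _ => MvPolynomial (Fin n) ℂ) j 1 i) =
        if j = i then 1 else 0 := by
      intro j
      by_cases h : j = i
      · subst h; simp
      · rw [Pi.single_eq_of_ne (Ne.symm h), map_zero, if_neg h]
    simp only [this, mul_ite, mul_one, mul_zero, Finset.sum_ite_eq', Finset.mem_univ, if_true]
    rw [Finset.mul_sum]
    congr 1
    · ring
    · refine Finset.sum_congr rfl fun j _ => ?_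
      ring

/-- the polynomial Hessian -/
noncomputable def H (P : MvPolynomial (Fin n) ℂ) :
    Matrix (Fin n) (Fin n) (MvPolynomial (Fin n) ℂ) :=
  Matrix.of fun i j => MvPolynomial.pderiv i (MvPolynomial.pderiv j P)

/-- the substitution `z ↦ z + m ∇P(z)` -/
noncomputable def phi (P : MvPolynomial (Fin n) ℂ) (m : ℕ) :
    MvPolynomial (Fin n) ℂ →ₐ[ℂ] MvPolynomial (Fin n) ℂ :=
  MvPolynomial.aeval (fun j => MvPolynomial.X j + (m : MvPolynomial (Fin n) ℂ) *
    MvPolynomial.pderiv j P)

lemma phi_fix (P : MvPolynomial (Fin n) ℂ)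
    (h1 : ∀ i, phi P 1 (MvPolynomial.pderiv i P) = MvPolynomial.pderiv i P) (m : ℕ) (i : Fin n) :
    phi P m (MvPolynomial.pderiv i P) = MvPolynomial.pderiv i P := by
  induction m with
  | zero =>
    have : phi P 0 = AlgHom.id ℂ _ := by
      apply MvPolynomial.algHom_ext
      intro j
      simp [phi]
    rw [this]; rfl
  | succ m ih =>
    have : phi P (m + 1) = (phi P 1).comp (phi P m) := by
      apply MvPolynomial.algHom_ext
      intro j
      have h2 := h1 j
      simp only [phi] at h2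
      simp only [phi, MvPolynomial.aeval_X, AlgHom.comp_apply, map_add, map_mul, h2, map_natCast]
      push_cast
      ring
    rw [this, AlgHom.comp_apply, ih, h1]

lemma isUnit_det (P : MvPolynomial (Fin n) ℂ)
    (h1 : ∀ i, phi P 1 (MvPolynomial.pderiv i P) = MvPolynomial.pderiv i P) (m : ℕ) :
    IsUnit (1 + (m : MvPolynomial (Fin n) ℂ) • H P).det := by
  have key : H P = (1 + (m : MvPolynomial (Fin n) ℂ) • H P) * (H P).map (phi P m) := by
    refine Matrix.ext fun k i => ?_
    rw [Matrix.mul_apply]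
    have h2 := congrArg (MvPolynomial.pderiv k) (phi_fix P h1 m i)
    rw [phi, chain] at h2
    change MvPolynomial.pderiv k (MvPolynomial.pderiv i P) = _
    refine h2.symm.trans (Finset.sum_congr rfl fun j _ => ?_)
    simp only [map_add, MvPolynomial.pderiv_X, Derivation.leibniz, smul_eq_mul, Matrix.add_apply,
      Matrix.smul_apply, Matrix.of_apply, Matrix.map_apply, phi, Matrix.one_apply, H]
    congr 1
    have : MvPolynomial.pderiv k (m : MvPolynomial (Fin n) ℂ) = 0 :=
      (MvPolynomial.pderiv k).map_natCast m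
    rw [this, mul_zero, add_zero]
    congr 1
    by_cases h : k = j
    · subst h; simp
    · rw [Pi.single_eq_of_ne (Ne.symm h), if_neg h]
  have : (1 + (m : MvPolynomial (Fin n) ℂ) • H P) *
      (1 - (m : MvPolynomial (Fin n) ℂ) • (H P).map (phi P m)) = 1 := by
    rw [mul_sub, mul_one, mul_smul_comm, ← key, add_sub_cancel_right]
  have h3 := congrArg Matrix.det this
  rw [Matrix.det_mul, Matrix.det_one] at h3
  exact IsUnit.of_mul_eq_one _ h3

lemma det_eq_one (P : MvPolynomial (Fin n) ℂ)
    (h1 : ∀ i, phi P 1 (MvPolynomial.pderiv i P) = MvPolynomial.pderiv i P)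
    (h0 : IsNilpotent ((H P).map (MvPolynomial.constantCoeff (σ := Fin n) (R := ℂ)))) (m : ℕ) :
    (1 + (m : MvPolynomial (Fin n) ℂ) • H P).det = 1 := by
  have hu := isUnit_det P h1 m
  rw [MvPolynomial.isUnit_iff_eq_C_of_isReduced] at hu
  obtain ⟨r, -, hr⟩ := hu
  have h2 := congrArg (MvPolynomial.constantCoeff (σ := Fin n) (R := ℂ)) hr
  rw [MvPolynomial.constantCoeff_C, RingHom.map_det] at h2
  set N := (H P).map (MvPolynomial.constantCoeff (σ := Fin n) (R := ℂ)) with hN
  have h3 : (MvPolynomial.constantCoeff (σ := Fin n) (R := ℂ)).mapMatrix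
      (1 + (m : MvPolynomial (Fin n) ℂ) • H P) = 1 + (m : ℂ) • N := by
    rw [map_add, map_one]
    congr 1
    ext i j
    simp [hN]
  rw [h3] at h2
  have h4 : IsNilpotent (-((m : ℂ) • N)) := (h0.smul (m : ℂ)).neg
  have h5 := Matrix.isNilpotent_charpoly_sub_pow_of_isNilpotent h4
  have h6 : (-((m : ℂ) • N)).charpoly = Polynomial.X ^ Fintype.card (Fin n) :=
    sub_eq_zero.1 h5.eq_zero
  have h7 := Matrix.eval_charpoly (-((m : ℂ) • N)) 1
  rw [h6, Polynomial.eval_pow, Polynomial.eval_X, one_pow, map_one, sub_neg_eq_add] at h7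
  rw [hr, ← h2, ← h7, map_one]

lemma isNilpotent_H (P : MvPolynomial (Fin n) ℂ)
    (h1 : ∀ i, phi P 1 (MvPolynomial.pderiv i P) = MvPolynomial.pderiv i P)
    (h0 : IsNilpotent ((H P).map (MvPolynomial.constantCoeff (σ := Fin n) (R := ℂ)))) :
    IsNilpotent (H P) := by
  have hc : (-H P).charpoly = Polynomial.X ^ n := by
    apply Polynomial.eq_of_infinite_eval_eq
    refine Set.Infinite.mono (s := Set.range fun m : ℕ =>
      (MvPolynomial.C (1 / ((m : ℂ) + 1)) : MvPolynomial (Fin n) ℂ)) ?_ ?_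
    · rintro _ ⟨m, rfl⟩
      rw [Set.mem_ofPred_eq, Matrix.eval_charpoly, Polynomial.eval_pow, Polynomial.eval_X,
        sub_neg_eq_add]
      have h2 : Matrix.scalar (Fin n) (MvPolynomial.C (1 / ((m : ℂ) + 1)) :
          MvPolynomial (Fin n) ℂ) + H P =
          (MvPolynomial.C (1 / ((m : ℂ) + 1)) : MvPolynomial (Fin n) ℂ) •
            (1 + ((m + 1 : ℕ) : MvPolynomial (Fin n) ℂ) • H P) := by
        rw [smul_add, smul_smul]
        congr 1
        · rw [Matrix.smul_one_eq_diagonal]; rfl
        · have : (MvPolynomial.C (1 / ((m : ℂ) + 1)) : MvPolynomial (Fin n) ℂ) *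
              ((m + 1 : ℕ) : MvPolynomial (Fin n) ℂ) = 1 := by
            rw [← map_natCast (MvPolynomial.C (σ := Fin n) (R := ℂ)) (m + 1), ← map_mul]
            have : (1 / ((m : ℂ) + 1)) * ((m + 1 : ℕ) : ℂ) = 1 := by
              push_cast
              have : (m : ℂ) + 1 ≠ 0 := Nat.cast_add_one_ne_zero m
              field_simp
            rw [this, map_one]
          rw [this, one_smul]
      rw [h2, Matrix.det_smul, det_eq_one P h1 h0, mul_one, Fintype.card_fin]
    · apply Set.infinite_range_of_injective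
      intro m m' h
      have h2 := MvPolynomial.C_injective _ _ h
      simp only [one_div, inv_inj] at h2
      exact_mod_cast add_right_cancel h2
  have h2 := Matrix.aeval_self_charpoly (-H P)
  rw [hc, map_pow, Polynomial.aeval_X] at h2
  have h3 : IsNilpotent (-H P) := ⟨n, h2⟩
  exact isNilpotent_neg_iff.1 h3

theorem poly (P : MvPolynomial (Fin n) ℂ) (h : IsSelfInverting (P : PS n)) : HN (P : PS n) := by
  obtain ⟨h2, h0, -, h3, -⟩ := h
  have hH : Hes (P : PS n) =
      (MvPolynomial.coeToMvPowerSeries.ringHom (σ := Fin n) (R := ℂ)).mapMatrix (H P) := by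
    ext i j : 2
    simp only [Hes, H, Matrix.of_apply, RingHom.mapMatrix_apply, Matrix.map_apply,
      MvPolynomial.coeToMvPowerSeries.ringHom_apply, pderiv_coe]
  rw [HN, hH]
  apply IsNilpotent.map
  have hsub : (HasSubst fun j => (X j : PS n) + pderiv ℂ j (P : PS n)) := by
    apply hasSubst_of_constantCoeff_zero
    intro j
    rw [map_add, constantCoeff_X, zero_add, ← coeff_zero_eq_constantCoeff_apply, coeff_pderiv,
      coeff_of_lt_order, zero_mul]
    refine lt_of_lt_of_le ?_ h2
    simp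
  apply isNilpotent_H
  · intro i
    have h4 := h3 i
    rw [subst_sub hsub, subst_X hsub] at h4
    have h5 : subst (fun j => (X j : PS n) + pderiv ℂ j (P : PS n)) (pderiv ℂ i (P : PS n)) =
        pderiv ℂ i (P : PS n) := by
      have := h4
      rw [sub_eq_iff_eq_add] at this
      exact (add_left_cancel this).symm
    rw [pderiv_coe, subst_coe] at h5
    have h6 : (fun j => (X j : PS n) + pderiv ℂ j (P : PS n)) =
        fun j => ((MvPolynomial.X j + MvPolynomial.pderiv j P : MvPolynomial (Fin n) ℂ) : PS n) := by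
      funext j
      rw [pderiv_coe, MvPolynomial.coe_add, MvPolynomial.coe_X]
    rw [h6] at h5
    apply MvPolynomial.coe_injective
    rw [← h5, phi]
    have h7 : (fun j => ((MvPolynomial.X j + MvPolynomial.pderiv j P : MvPolynomial (Fin n) ℂ) :
        PS n)) = fun j => MvPolynomial.coeToMvPowerSeries.algHom ℂ
          (MvPolynomial.X j + MvPolynomial.pderiv j P : MvPolynomial (Fin n) ℂ) := by
      funext j
      simp
    rw [h7, ← MvPolynomial.comp_aeval_apply]
    simp
  · have : (Hes (P : PS n)).map (constantCoeff (σ := Fin n) (R := ℂ)) =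
        (H P).map (MvPolynomial.constantCoeff (σ := Fin n) (R := ℂ)) := by
      rw [hH]
      ext i j : 2
      simp [Matrix.map_apply, MvPolynomial.constantCoeff_eq, ← coeff_zero_eq_constantCoeff_apply]
    rw [← this]
    exact h0

end Poly

/-! ### The power series counterexample -/

section Series

variable {n : ℕ} (h3 : 3 ≤ n)

/-- the first index -/
def i0 : Fin n := ⟨0, by omega⟩
/-- the second index -/
def i1 : Fin n := ⟨1, by omega⟩
/-- the third index -/
def i2 : Fin n := ⟨2, by omega⟩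

lemma i01 : i0 h3 ≠ i1 h3 := by simp [i0, i1]
lemma i02 : i0 h3 ≠ i2 h3 := by simp [i0, i2]
lemma i12 : i1 h3 ≠ i2 h3 := by simp [i1, i2]

/-- `a = z₀ + i z₁` -/
noncomputable def a : PS n := X (i0 h3) + C Complex.I * X (i1 h3)
/-- `b = z₀ - i z₁` -/
noncomputable def b : PS n := X (i0 h3) - C Complex.I * X (i1 h3)
/-- `u = 1 / (1 + a)` -/
noncomputable def u : PS n := (1 + a h3)⁻¹
/-- `w = z₂ / (1 + a)` -/
noncomputable def w : PS n := X (i2 h3) * u h3
/-- `S = b + w² (1 + a)` -/
noncomputable def S : PS n := b h3 + w h3 ^ 2 * (1 + a h3)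

/-- gradient of `a` -/
noncomputable def al (j : Fin n) : PS n :=
  if j = i0 h3 then 1 else if j = i1 h3 then C Complex.I else 0
/-- gradient of `b` -/
noncomputable def be (j : Fin n) : PS n :=
  if j = i0 h3 then 1 else if j = i1 h3 then - C Complex.I else 0
/-- gradient of `z₂` -/
noncomputable def ga (j : Fin n) : PS n := if j = i2 h3 then 1 else 0

lemma CI_sq : (C Complex.I : PS n) * C Complex.I = -1 := by
  rw [← map_mul, Complex.I_mul_I, map_neg, map_one]

lemma u_mul : u h3 * (1 + a h3) = 1 := by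
  rw [u]
  refine MvPowerSeries.inv_mul_cancel _ ?_
  simp [a]

lemma pX (i j : Fin n) : pderiv ℂ j (X i : PS n) = if i = j then 1 else 0 := by
  by_cases h : i = j
  · subst h; simp
  · rw [pderiv_X_of_ne h, if_neg h]

lemma p_a (j : Fin n) : pderiv ℂ j (a h3) = al h3 j := by
  have h01 := i01 h3
  simp only [a, map_add, Derivation.leibniz, pX, pderiv_C, smul_eq_mul, mul_zero, add_zero, al]
  by_cases hj0 : j = i0 h3
  · subst hj0; simp [h01.symm]
  · by_cases hj1 : j = i1 h3
    · subst hj1; simp [h01, h01.symm]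
    · simp [hj0, hj1, Ne.symm hj0, Ne.symm hj1]

lemma p_b (j : Fin n) : pderiv ℂ j (b h3) = be h3 j := by
  have h01 := i01 h3
  simp only [b, map_sub, Derivation.leibniz, pX, pderiv_C, smul_eq_mul, mul_zero, add_zero, be]
  by_cases hj0 : j = i0 h3
  · subst hj0; simp [h01.symm]
  · by_cases hj1 : j = i1 h3
    · subst hj1; simp [h01, h01.symm]
    · simp [hj0, hj1, Ne.symm hj0, Ne.symm hj1]

lemma p_c (j : Fin n) : pderiv ℂ j (X (i2 h3) : PS n) = ga h3 j := by
  rw [pX, ga]
  simp only [eq_comm]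

lemma p_u (j : Fin n) : pderiv ℂ j (u h3) = - u h3 ^ 2 * al h3 j := by
  rw [u, pderiv_inv', map_add, p_a, ← map_one (C (σ := Fin n) (R := ℂ)), pderiv_C, zero_add]

lemma p_w (j : Fin n) :
    pderiv ℂ j (w h3) = u h3 * ga h3 j - w h3 * u h3 * al h3 j := by
  rw [w, Derivation.leibniz, p_c, p_u, smul_eq_mul, smul_eq_mul]
  ring

lemma p_S (j : Fin n) :
    pderiv ℂ j (S h3) = be h3 j + 2 * w h3 * ga h3 j - w h3 ^ 2 * al h3 j := by
  have hu := u_mul h3
  rw [S, map_add, p_b, Derivation.leibniz, Derivation.leibniz_pow, p_w, map_add, p_a,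
    ← map_one (C (σ := Fin n) (R := ℂ)), pderiv_C, zero_add, map_one]
  simp only [smul_eq_mul, nsmul_eq_mul]
  push_cast
  linear_combination (2 * w h3 * ga h3 j - 2 * w h3 ^ 2 * al h3 j) * hu

lemma sum_al (f : Fin n → PS n) :
    ∑ j, al h3 j * f j = f (i0 h3) + C Complex.I * f (i1 h3) := by
  have h01 := i01 h3
  have : ∀ j, al h3 j * f j = (if j = i0 h3 then f (i0 h3) else 0) +
      (if j = i1 h3 then C Complex.I * f (i1 h3) else 0) := by
    intro j
    rw [al]
    by_cases hj0 : j = i0 h3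
    · subst hj0; simp [h01]
    · by_cases hj1 : j = i1 h3
      · subst hj1; simp [h01.symm]
      · simp [hj0, hj1]
  simp [this, Finset.sum_add_distrib]

lemma sum_be (f : Fin n → PS n) :
    ∑ j, be h3 j * f j = f (i0 h3) - C Complex.I * f (i1 h3) := by
  have h01 := i01 h3
  have : ∀ j, be h3 j * f j = (if j = i0 h3 then f (i0 h3) else 0) +
      (if j = i1 h3 then - (C Complex.I * f (i1 h3)) else 0) := by
    intro j
    rw [be]
    by_cases hj0 : j = i0 h3
    · subst hj0; simp [h01]
    · by_cases hj1 : j = i1 h3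
      · subst hj1; simp [h01.symm]
      · simp [hj0, hj1]
  simp [this, Finset.sum_add_distrib, sub_eq_add_neg]

lemma sum_ga (f : Fin n → PS n) : ∑ j, ga h3 j * f j = f (i2 h3) := by
  simp [ga]

lemma al0 : al h3 (i0 h3) = 1 := by simp [al]
lemma al1 : al h3 (i1 h3) = C Complex.I := by simp [al, (i01 h3).symm]
lemma al2 : al h3 (i2 h3) = 0 := by simp [al, (i02 h3).symm, (i12 h3).symm]
lemma be0 : be h3 (i0 h3) = 1 := by simp [be]
lemma be1 : be h3 (i1 h3) = - C Complex.I := by simp [be, (i01 h3).symm]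
lemma be2 : be h3 (i2 h3) = 0 := by simp [be, (i02 h3).symm, (i12 h3).symm]
lemma ga0 : ga h3 (i0 h3) = 0 := by simp [ga, (i02 h3)]
lemma ga1 : ga h3 (i1 h3) = 0 := by simp [ga, (i12 h3)]
lemma ga2 : ga h3 (i2 h3) = 1 := by simp [ga]

/-- the gradient of `S` -/
noncomputable def gS (j : Fin n) : PS n := be h3 j + 2 * w h3 * ga h3 j - w h3 ^ 2 * al h3 j

lemma gS0 : gS h3 (i0 h3) = 1 - w h3 ^ 2 := by rw [gS, al0, be0, ga0]; ring
lemma gS1 : gS h3 (i1 h3) = - C Complex.I * (1 + w h3 ^ 2) := by rw [gS, al1, be1, ga1]; ring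
lemma gS2 : gS h3 (i2 h3) = 2 * w h3 := by rw [gS, al2, be2, ga2]; ring

lemma sum_gS (f : Fin n → PS n) : ∑ j, gS h3 j * f j =
    (1 - w h3 ^ 2) * f (i0 h3) - C Complex.I * (1 + w h3 ^ 2) * f (i1 h3) +
      2 * w h3 * f (i2 h3) := by
  have : ∀ j, gS h3 j * f j = be h3 j * f j + 2 * w h3 * (ga h3 j * f j) -
      w h3 ^ 2 * (al h3 j * f j) := by
    intro j; rw [gS]; ring
  simp only [this, Finset.sum_add_distrib, Finset.sum_sub_distrib, ← Finset.mul_sum, sum_al, sum_be,
    sum_ga]
  ring

/-- the isotropy of the gradient of `S` -/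
lemma iso : ∑ j, gS h3 j * gS h3 j = 0 := by
  rw [sum_gS, gS0, gS1, gS2]
  linear_combination (1 + w h3 ^ 2) ^ 2 * CI_sq (n := n)

/-- the Laplacian of `S` -/
lemma lapl : ∑ j, pderiv ℂ j (gS h3 j) = 2 * u h3 := by
  have : ∀ j, pderiv ℂ j (gS h3 j) = 2 * (ga h3 j * pderiv ℂ j (w h3)) -
      2 * w h3 * (al h3 j * pderiv ℂ j (w h3)) := by
    intro j
    have e1 : pderiv ℂ j (be h3 j) = 0 := by
      rw [be]; split_ifs <;> simp
    have e2 : pderiv ℂ j (ga h3 j) = 0 := by
      rw [ga]; split_ifs <;> simp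
    have e3 : pderiv ℂ j (al h3 j) = 0 := by
      rw [al]; split_ifs <;> simp
    have e4 : pderiv ℂ j (2 : PS n) = 0 := by
      have := (pderiv ℂ j : Derivation ℂ (PS n) (PS n)).map_natCast 2
      exact_mod_cast this
    simp only [gS, map_add, map_sub, Derivation.leibniz, e1, e2, e3, e4, smul_eq_mul,
      Derivation.leibniz_pow, nsmul_eq_mul]
    push_cast
    ring
  simp only [this, Finset.sum_sub_distrib, ← Finset.mul_sum, sum_al, sum_ga, p_w, al0, al1, al2,
    ga0, ga1, ga2]
  linear_combination (2 * w h3 * w h3 * u h3) * CI_sq (n := n)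

lemma w0 : constantCoeff (w h3) = 0 := by simp [w]
lemma S0 : constantCoeff (S h3) = 0 := by simp [S, b, w0]

/-- substitutions along multiples of the gradient of `S` that fix `S` and its gradient -/
lemma subst_fix (T : PS n) (φ : PS n →ₐ[ℂ] PS n)
    (hφ : ∀ j, φ (X j) = X j + T * gS h3 j) :
    φ (S h3) = S h3 ∧ ∀ j, φ (gS h3 j) = gS h3 j := by
  have hCI : φ (C Complex.I) = C Complex.I := by
    have : (C Complex.I : PS n) = algebraMap ℂ _ Complex.I := rfl
    rw [this, AlgHom.commutes]
  have ha : φ (a h3) = a h3 + 2 * T := by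
    rw [a, map_add, map_mul, hCI, hφ, hφ, gS0, gS1]
    linear_combination (- T * (1 + w h3 ^ 2)) * CI_sq (n := n)
  have hb : φ (b h3) = b h3 - 2 * T * w h3 ^ 2 := by
    rw [b, map_sub, map_mul, hCI, hφ, hφ, gS0, gS1]
    linear_combination (T * (1 + w h3 ^ 2)) * CI_sq (n := n)
  have hu := u_mul h3
  have hu' : φ (u h3) * (1 + a h3 + 2 * T) = 1 := by
    have := congrArg φ hu
    rw [map_mul, map_add, map_one, ha] at this
    linear_combination this
  have hX : X (i2 h3) = w h3 * (1 + a h3) := by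
    rw [w]; linear_combination (- X (i2 h3)) * hu
  have hw : φ (w h3) = w h3 := by
    have h1 : φ (w h3) = (X (i2 h3) + 2 * T * w h3) * φ (u h3) := by
      conv_lhs => rw [w]
      rw [map_mul, hφ, gS2]
      ring
    rw [h1]
    linear_combination φ (u h3) * hX + w h3 * hu'
  refine ⟨?_, fun j => ?_⟩
  · rw [S, map_add, map_mul, map_pow, map_add, map_one, hw, ha, hb]
    ring
  · have e1 : φ (be h3 j) = be h3 j := by
      rw [be]; split_ifs <;> simp [hCI]
    have e2 : φ (ga h3 j) = ga h3 j := by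
      rw [ga]; split_ifs <;> simp
    have e3 : φ (al h3 j) = al h3 j := by
      rw [al]; split_ifs <;> simp [hCI]
    simp only [gS, map_add, map_sub, map_mul, map_pow, hw, e1, e2, e3, map_ofNat]

/-- the counterexample -/
noncomputable def P (m : ℕ) : PS n := S h3 ^ (m + 3)

lemma p_P (m : ℕ) (j : Fin n) :
    pderiv ℂ j (P h3 m) = ((m + 3 : ℕ) : PS n) * S h3 ^ (m + 2) * gS h3 j := by
  rw [P, pderiv_pow, p_S]; rfl

lemma order_P (m : ℕ) : ((m + 3 : ℕ) : ℕ∞) ≤ (P h3 m).order :=
  le_order_pow_of_constantCoeff_eq_zero _ (S0 h3)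

lemma S_ne : S h3 ≠ 0 := by
  intro h
  have h1 := congrArg (fun f => constantCoeff (pderiv ℂ (i0 h3) f)) h
  simp only [p_S, map_zero] at h1
  rw [al0, be0, ga0] at h1
  simp [w0] at h1

lemma not_HN (m : ℕ) : ¬ HN (P h3 m) := by
  intro h
  have h1 := Matrix.isNilpotent_trace_of_isNilpotent h
  have h2 := h1.eq_zero
  rw [Matrix.trace] at h2
  have h4 : ∀ j, Matrix.diag (Hes (P h3 m)) j =
      ((m + 3 : ℕ) : PS n) * ((m + 2 : ℕ) : PS n) * S h3 ^ (m + 1) * (gS h3 j * gS h3 j) +
      ((m + 3 : ℕ) : PS n) * S h3 ^ (m + 2) * pderiv ℂ j (gS h3 j) := by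
    intro j
    rw [Matrix.diag_apply, Hes, Matrix.of_apply, p_P, Derivation.leibniz, Derivation.leibniz,
      Derivation.map_natCast, pderiv_pow, p_S, ← gS]
    simp only [smul_eq_mul]
    have : m + 2 - 1 = m + 1 := rfl
    rw [this]
    ring
  simp only [h4, Finset.sum_add_distrib, ← Finset.mul_sum, iso, lapl, mul_zero, zero_add] at h2
  have h5 : u h3 ≠ 0 := by
    intro h
    have := u_mul h3
    rw [h, zero_mul] at this
    exact zero_ne_one this
  have h6 : ((m + 3 : ℕ) : PS n) ≠ 0 := by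
    intro h
    have := congrArg constantCoeff h
    rw [map_natCast, map_zero] at this
    exact absurd (Nat.cast_eq_zero.1 this) (by omega)
  have h7 : (2 : PS n) ≠ 0 := by
    intro h
    have := congrArg constantCoeff h
    rw [map_ofNat, map_zero] at this
    exact absurd this two_ne_zero
  exact mul_ne_zero (mul_ne_zero h6 (pow_ne_zero _ (S_ne h3))) (mul_ne_zero h7 h5) h2

lemma selfInverting_P (m : ℕ) : IsSelfInverting (P h3 m) := by
  have hord := order_P h3 m
  have hT : constantCoeff (((m + 3 : ℕ) : PS n) * S h3 ^ (m + 2)) = 0 := by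
    rw [map_mul, map_pow, S0, zero_pow (by omega), mul_zero]
  refine ⟨le_trans (by exact_mod_cast (by omega : 2 ≤ m + 3)) hord, ?_, ?_, ?_, ?_⟩
  · have : (Hes (P h3 m)).map (constantCoeff (σ := Fin n) (R := ℂ)) = 0 := by
      refine Matrix.ext fun i j => ?_
      rw [Matrix.map_apply, Hes, Matrix.of_apply, ← coeff_zero_eq_constantCoeff_apply,
        coeff_pderiv, coeff_pderiv, coeff_of_lt_order, zero_mul, zero_mul, Matrix.zero_apply]
      refine lt_of_lt_of_le ?_ hord
      simp only [zero_add, map_add, Finsupp.degree_single]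
      exact_mod_cast (by omega : 1 + 1 < m + 3)
    rw [this]
    exact IsNilpotent.zero
  · rw [P, map_pow, S0, zero_pow (by omega)]
  · intro i
    have hs : HasSubst fun j => (X j : PS n) + pderiv ℂ j (P h3 m) := by
      apply hasSubst_of_constantCoeff_zero
      intro j
      rw [map_add, constantCoeff_X, p_P, map_mul, hT, zero_mul, zero_add]
    have h1 := subst_fix h3 (((m + 3 : ℕ) : PS n) * S h3 ^ (m + 2))
      (substAlgHom (R := ℂ) hs) (fun j => by rw [substAlgHom_X, p_P])
    rw [← substAlgHom_apply hs, map_sub, substAlgHom_X, p_P, map_mul, map_mul, map_pow, h1.1,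
      h1.2, map_natCast]
    ring
  · intro i
    have hs : HasSubst fun j => (X j : PS n) - pderiv ℂ j (P h3 m) := by
      apply hasSubst_of_constantCoeff_zero
      intro j
      rw [map_sub, constantCoeff_X, p_P, map_mul, hT, zero_mul, sub_zero]
    have h1 := subst_fix h3 (-(((m + 3 : ℕ) : PS n) * S h3 ^ (m + 2)))
      (substAlgHom (R := ℂ) hs) (fun j => by rw [substAlgHom_X, p_P]; ring)
    rw [← substAlgHom_apply hs, map_add, substAlgHom_X, p_P, map_mul, map_mul, map_pow, h1.1,
      h1.2, map_natCast]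
    ring

end Series

/-- Every self-inverting polynomial is Hessian nilpotent, but for every `n ≥ 3` and every `d` there
is a self-inverting formal power series in `n` variables, of order at least `d`, that is not Hessian
nilpotent. -/
theorem result :
    (∀ (n : ℕ) (P : MvPolynomial (Fin n) ℂ), IsSelfInverting (P : PS n) → HN (P : PS n)) ∧
    (∀ n : ℕ, 3 ≤ n → ∀ d : ℕ, ∃ P : PS n, (d : ℕ∞) ≤ P.order ∧ IsSelfInverting P ∧ ¬ HN P) := by
  refine ⟨fun n P h => poly P h, fun n h3 d => ⟨P h3 d, ?_, selfInverting_P h3 d, not_HN h3 d⟩⟩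
  exact le_trans (by exact_mod_cast (by omega : d ≤ d + 3)) (order_P h3 d)

end Pool.Agent.Results.MP_e6e7b2_al.SelfInverting
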